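import Pool.Agent.R580.Gpfa.Main

set_option autoImplicit false

/-!
# Two-state generalized automata do not suffice for binary strings

`wordProd P w = P_{w_1} ⋯ P_{w_n}` (from `Pool.Agent.R580.Gpfa.Alg`) and `hard`, a word of length
`76` (from `Pool.Agent.R580.Gpfa.Main`): with `X = 0110`, `Y = 1001`,
`hard = XXYXYXXYXXXYYXYXYXY`.
-/

open Matrix Pool.Agent.R580.Gpfa

namespace Pool.Agent.Results.MP_7880bd_lc.ThreeStates

/-- A `k`-state generalized probabilistic finite automaton over `{0, 1}` (`false` is `0`, `true`
is `1`): a real row vector, two real matrices and a real column vector -/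
structure GPFA (k : ℕ) where
  /-- the row vector -/
  row : Fin k → ℝ
  /-- the matrices `P_0` and `P_1` -/
  mat : Bool → Matrix (Fin k) (Fin k) ℝ
  /-- the column vector -/
  col : Fin k → ℝ

/-- `ρ_M(w) = π P_{w_1} ⋯ P_{w_n} η` -/
def GPFA.rho {k : ℕ} (M : GPFA k) (w : List Bool) : ℝ := M.row ⬝ᵥ (wordProd M.mat w *ᵥ M.col)

/-- `gap_M(x)`: the infimum of `ρ_M(x) - ρ_M(z)` over the words `z ≠ x` of the same length
(`+∞` if there are none) -/
noncomputable def GPFA.gap {k : ℕ} (M : GPFA k) (x : List Bool) : EReal :=
  ⨅ z : {z : List Bool // z.length = x.length ∧ z ≠ x}, ((M.rho x - M.rho z.1 : ℝ) : EReal)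

/-- the GPFA complexity `A_G(x)` -/
noncomputable def complexity (x : List Bool) : ℕ :=
  sInf {k : ℕ | 1 ≤ k ∧ ∃ M : GPFA k, 0 < M.gap x}

lemma GPFA.lt_of_gap {k : ℕ} {M : GPFA k} {x : List Bool} (h : 0 < M.gap x) (z : List Bool)
    (hl : z.length = x.length) (hne : z ≠ x) : M.rho z < M.rho x := by
  have h1 : M.gap x ≤ ((M.rho x - M.rho z : ℝ) : EReal) :=
    iInf_le (fun z : {z : List Bool // z.length = x.length ∧ z ≠ x} =>
      ((M.rho x - M.rho z.1 : ℝ) : EReal)) ⟨z, hl, hne⟩
  have h2 : (0 : EReal) < ((M.rho x - M.rho z : ℝ) : EReal) := lt_of_lt_of_le h h1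
  have h3 : (0 : ℝ) < M.rho x - M.rho z := by exact_mod_cast h2
  linarith

/-- the deterministic automaton of a word -/
def dfa (x : List Bool) : GPFA (x.length + 1) where
  row i := if i.1 = 0 then 1 else 0
  mat b i j := if i.1 + 1 = j.1 ∧ x[i.1]? = some b then 1 else 0
  col i := if i.1 = x.length then 1 else 0

lemma dfa_row (x : List Bool) (w : List Bool) : ∀ (j : Fin (x.length + 1)) (i : ℕ),
    ((fun m : Fin (x.length + 1) => if m.1 = i then (1 : ℝ) else 0) ᵥ* wordProd (dfa x).mat w) j =
      if i + w.length = j.1 ∧ i + w.length ≤ x.length ∧ (x.drop i).take w.length = w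
        then 1 else 0 := by
  induction w with
  | nil =>
    intro j i
    have := j.2
    by_cases h : i = j.1
    · subst h
      simp [wordProd]
      omega
    · have h' : ¬ j.1 = i := fun e => h e.symm
      simp [wordProd, h, h']
  | cons b w ih =>
    intro j i
    have e1 : wordProd (dfa x).mat (b :: w) = (dfa x).mat b * wordProd (dfa x).mat w := by
      simp [wordProd]
    rw [e1, ← Matrix.vecMul_vecMul]
    by_cases hb : x[i]? = some b
    · have hi : i < x.length := by
        rw [List.getElem?_eq_some_iff] at hb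
        exact hb.1
      have e2 : (fun m : Fin (x.length + 1) => if m.1 = i then (1 : ℝ) else 0) ᵥ* (dfa x).mat b =
          fun m : Fin (x.length + 1) => if m.1 = i + 1 then (1 : ℝ) else 0 := by
        funext m
        simp only [Matrix.vecMul, dotProduct, dfa]
        rw [Finset.sum_eq_single (⟨i, by omega⟩ : Fin (x.length + 1))]
        · simp only [if_true, hb, and_true, one_mul]
          congr 1
          exact propext eq_comm
        · intro m' _ hm'
          have : m'.1 ≠ i := fun e => hm' (Fin.ext e)
          simp [this]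
        · simp
      rw [e2, ih]
      have e3 : (x.drop i).take (b :: w).length = b :: (x.drop (i + 1)).take w.length := by
        rw [List.length_cons]
        have : x.drop i = b :: x.drop (i + 1) := by
          rw [List.drop_eq_getElem_cons hi]
          congr 1
          rw [List.getElem?_eq_getElem hi] at hb
          exact Option.some.inj hb
        rw [this, List.take_succ_cons]
      rw [e3]
      simp only [List.length_cons, List.cons.injEq, true_and]
      congr 1
      apply propext
      constructor <;> rintro ⟨h1, h2, h3⟩ <;> exact ⟨by omega, by omega, h3⟩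
    · have e2 : (fun m : Fin (x.length + 1) => if m.1 = i then (1 : ℝ) else 0) ᵥ* (dfa x).mat b =
          0 := by
        funext m
        simp only [Matrix.vecMul, dotProduct, dfa, Pi.zero_apply]
        apply Finset.sum_eq_zero
        intro m' _
        by_cases hm' : m'.1 = i
        · simp [hm', hb]
        · simp [hm']
      rw [e2, Matrix.zero_vecMul, Pi.zero_apply, if_neg]
      rintro ⟨-, h2, h3⟩
      rw [List.length_cons] at h2 h3
      have hi : i < x.length := by omega
      rw [List.drop_eq_getElem_cons hi, List.take_succ_cons, List.cons.injEq] at h3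
      apply hb
      rw [List.getElem?_eq_getElem hi, h3.1]

lemma dfa_rho (x w : List Bool) (hl : w.length = x.length) :
    (dfa x).rho w = if w = x then 1 else 0 := by
  rw [GPFA.rho, Matrix.dotProduct_mulVec]
  have h1 : (dfa x).row = fun m : Fin (x.length + 1) => if m.1 = 0 then (1 : ℝ) else 0 := rfl
  rw [dotProduct, h1]
  simp only [dfa_row]
  rw [Finset.sum_eq_single (Fin.last x.length)]
  · simp only [dfa, Fin.val_last, hl, zero_add, le_refl, true_and, List.drop_zero, if_true,
      mul_one, List.take_length]
    congr 1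
    exact propext eq_comm
  · intro m _ hm
    have : ¬ m.1 = x.length := fun e => hm (Fin.ext e)
    simp [dfa, this]
  · simp

theorem exists_gpfa (x : List Bool) : ∃ k, 1 ≤ k ∧ ∃ M : GPFA k, 0 < M.gap x := by
  refine ⟨x.length + 1, by omega, dfa x, ?_⟩
  have h : (1 : EReal) ≤ (dfa x).gap x := by
    apply le_iInf
    rintro ⟨z, hl, hne⟩
    rw [dfa_rho x x rfl, dfa_rho x z hl, if_pos rfl, if_neg hne]
    simp
  exact lt_of_lt_of_le (by norm_num) h

lemma not_one (M : GPFA 1) (u v : List Bool) : ¬ 0 < M.gap (u ++ hard ++ v) := by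
  intro h
  have hc : ∀ A B : Matrix (Fin 1) (Fin 1) ℝ, A * B = B * A := by
    intro A B
    ext i j
    fin_cases i
    fin_cases j
    simp [Matrix.mul_apply, mul_comm]
  have hh : hard = [false, true] ++ hard.drop 2 := rfl
  have := GPFA.lt_of_gap h (u ++ ([true, false] ++ hard.drop 2) ++ v)
    (by rw [hh]; simp) (by
      rw [hh]
      simp)
  have e : wordProd M.mat (u ++ ([true, false] ++ hard.drop 2) ++ v) =
      wordProd M.mat (u ++ hard ++ v) := by
    conv_rhs => rw [hh]
    rw [wordProd_append, wordProd_append, wordProd_append, wordProd_append, wordProd_append,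
      wordProd_append]
    have : wordProd M.mat [true, false] = wordProd M.mat [false, true] := by
      simp [wordProd, hc (M.mat true)]
    rw [this]
  rw [GPFA.rho, GPFA.rho, e] at this
  exact lt_irrefl _ this

lemma not_two (M : GPFA 2) (u v : List Bool) : ¬ 0 < M.gap (u ++ hard ++ v) := by
  intro h
  have h1 : Att M.mat (u ++ hard ++ v) :=
    ⟨M.row, M.col, fun w hl hne => GPFA.lt_of_gap h w hl hne⟩
  exact not_att_hard _ h1.factor

/-- **Theorem.** The minimum defining the complexity always exists, and there is a binary string of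
length `76` such that every binary string having it as a factor has GPFA complexity at
least `3`. -/
theorem result : (∀ x : List Bool, ∃ k, 1 ≤ k ∧ ∃ M : GPFA k, 0 < M.gap x) ∧
    ∃ y : List Bool, y.length = 76 ∧ ∀ u v : List Bool, 3 ≤ complexity (u ++ y ++ v) := by
  refine ⟨exists_gpfa, hard, length_hard, fun u v => ?_⟩
  obtain ⟨k, hk⟩ := exists_gpfa (u ++ hard ++ v)
  have hmem : complexity (u ++ hard ++ v) ∈
      {k : ℕ | 1 ≤ k ∧ ∃ M : GPFA k, 0 < M.gap (u ++ hard ++ v)} := Nat.sInf_mem ⟨k, hk⟩
  by_contra hc
  generalize complexity (u ++ hard ++ v) = c at hmem hc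
  obtain ⟨h1, M, hM⟩ := hmem
  have : c = 1 ∨ c = 2 := by omega
  rcases this with rfl | rfl
  · exact not_one M u v hM
  · exact not_two M u v hM

end Pool.Agent.Results.MP_7880bd_lc.ThreeStates
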